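import Pool.Agent.Torelli.SP.Act

/-!
# Torelli / SP / Trans : transitivity statements

* `SP_NF`  every vector of `Vs s h` (`h ≥ 1`) is moved by `M s h` to a multiple of `ea s`;
* `SP1`    transitivity on primitive vectors;
* `Ma s h` the subgroup generated by `M (s+1) (h-1)`, `Ta s`, `P s` (it fixes `a s`);
* `SP_push` `Ma s h` moves `eb s` to any `v` with `om (ea s) v = 1`, fixing `ea s`;
* `SP2`    transitivity on partial symplectic bases; `SP3` stabiliser of `ea s`;
* `SP4`    stabiliser of `Vs s k`.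
-/

set_option autoImplicit false

namespace Pool.Agent.Torelli

/-- decomposition of a vector of `Vs s (h+1)` -/
theorem Vs_split {s h : ℕ} {v : Lat} (hv : v ∈ Vs s (h + 1)) :
    v - v (2 * s) • ea s - v (2 * s + 1) • eb s ∈ Vs (s + 1) h := by
  intro n hn
  simp only [Finsupp.sub_apply, Finsupp.smul_apply, smul_eq_mul, ea_apply, eb_apply]
  by_cases h1 : n = 2 * s
  · subst h1; simp
  by_cases h2 : n = 2 * s + 1
  · subst h2; simp
  rw [if_neg h1, if_neg h2, hv n (by omega)]; simp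

theorem Vs_zero {s : ℕ} {v : Lat} (hv : v ∈ Vs s 0) : v = 0 := by
  ext n
  exact hv n (by omega)

/-- `Ta i ^ k` on the lattice -/
theorem act_Ta_zpow (i : ℕ) (k : ℤ) (v : Lat) :
    act (Ta i ^ k) v = v + (k * v (2 * i + 1)) • ea i := by
  have hpos : ∀ n : ℕ, ∀ v : Lat, act (Ta i ^ n) v = v + ((n : ℤ) * v (2 * i + 1)) • ea i := by
    intro n
    induction n with
    | zero => intro v; simp [act_one]
    | succ n ih =>
      intro v
      rw [pow_succ, act_mul, ih, act_Ta]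
      simp only [Finsupp.add_apply, Finsupp.smul_apply, ea_odd, smul_zero, add_zero]
      rw [add_assoc, ← add_smul]
      congr 2; push_cast; ring
  obtain ⟨n, rfl | rfl⟩ := k.eq_nat_or_neg
  · rw [zpow_natCast, hpos]
  · rw [zpow_neg, zpow_natCast, eq_comm, ← act_eq_iff, hpos]
    simp only [Finsupp.add_apply, Finsupp.smul_apply, ea_odd, smul_zero, add_zero]
    rw [add_assoc, ← add_smul]
    simp

theorem act_P_zpow (i : ℕ) (k : ℤ) (v : Lat) : act (P i ^ k) v =
    v - (k * v (2 * i + 1)) • ea (i + 1) - (k * v (2 * (i + 1) + 1)) • ea i := by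
  have hpos : ∀ n : ℕ, ∀ v : Lat, act (P i ^ n) v =
      v - ((n : ℤ) * v (2 * i + 1)) • ea (i + 1) - ((n : ℤ) * v (2 * (i + 1) + 1)) • ea i := by
    intro n
    induction n with
    | zero => intro v; simp [act_one]
    | succ n ih =>
      intro v
      rw [pow_succ, act_mul, ih, act_P]
      simp only [Finsupp.sub_apply, Finsupp.smul_apply, ea_odd, smul_zero, sub_zero]
      push_cast
      simp only [add_mul, one_mul, add_smul]
      abel
  obtain ⟨n, rfl | rfl⟩ := k.eq_nat_or_neg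
  · rw [zpow_natCast, hpos]
  · rw [zpow_neg, zpow_natCast, eq_comm, ← act_eq_iff, hpos]
    simp only [Finsupp.sub_apply, Finsupp.neg_apply, Finsupp.smul_apply, ea_odd, smul_zero,
      sub_zero, neg_mul, neg_smul, sub_neg_eq_add, Finsupp.add_apply, add_zero]
    abel

/-- quarter turn in handle `i` -/
def rot (i : ℕ) : MulAut F := (Ta i)⁻¹ * Tb i * (Ta i)⁻¹

theorem rot_mem {s h i : ℕ} (h1 : s ≤ i) (h2 : i < s + h) : rot i ∈ M s h :=
  mul_mem (mul_mem (inv_mem (Ta_mem_M h1 h2)) (Tb_mem_M h1 h2)) (inv_mem (Ta_mem_M h1 h2))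

theorem act_Ta_inv (i : ℕ) (v : Lat) : act (Ta i)⁻¹ v = v - v (2 * i + 1) • ea i := by
  have := act_Ta_zpow i (-1) v
  rw [zpow_neg_one] at this
  rw [this]; simp [sub_eq_add_neg]

theorem act_rot (i : ℕ) (v : Lat) : act (rot i) v =
    v - (v (2 * i) + v (2 * i + 1)) • ea i + (v (2 * i) - v (2 * i + 1)) • eb i := by
  rw [rot, act_mul, act_mul, act_Ta_inv, act_Tb, act_Ta_inv]
  simp only [Finsupp.add_apply, Finsupp.sub_apply, Finsupp.smul_apply, ea_even, ea_odd, eb_even,
    eb_odd, smul_eq_mul, if_true, mul_one, mul_zero, sub_zero, add_zero]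
  have e : v (2 * i + 1) + (v (2 * i) - v (2 * i + 1)) = v (2 * i) := by ring
  rw [e, add_smul]; abel

/-- one handle: reduction to a multiple of `ea i` -/
theorem SP_one (i : ℕ) : ∀ N : ℕ, ∀ v : Lat, (v (2 * i + 1)).natAbs = N →
    ∃ θ ∈ M i 1, ∃ c : ℤ, act θ v = v - v (2 * i) • ea i - v (2 * i + 1) • eb i + c • ea i := by
  intro N
  induction N using Nat.strong_induction_on with
  | _ N ih =>
    intro v hv
    by_cases h0 : v (2 * i + 1) = 0
    · refine ⟨1, one_mem _, v (2 * i), ?_⟩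
      rw [act_one, h0]; simp
    · have hT : Ta i ∈ M i 1 := Ta_mem_M le_rfl (by omega)
      have hR : rot i ∈ M i 1 := rot_mem le_rfl (by omega)
      set k : ℤ := -(v (2 * i) / v (2 * i + 1)) with hk
      set v' := act (rot i) (act (Ta i ^ k) v) with hv'
      have h1 : v' (2 * i + 1) = v (2 * i) % v (2 * i + 1) := by
        rw [hv', act_rot, act_Ta_zpow]
        simp only [Finsupp.add_apply, Finsupp.sub_apply, Finsupp.smul_apply, ea_even, ea_odd,
          eb_even, eb_odd, smul_eq_mul, if_true, mul_one, mul_zero, sub_zero, add_zero, hk]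
        have := Int.emod_add_mul_ediv (v (2 * i)) (v (2 * i + 1))
        linarith
      have hlt : (v' (2 * i + 1)).natAbs < N := by
        rw [h1, ← hv]
        have := Int.emod_lt_abs (v (2 * i)) h0
        rw [Int.abs_eq_natAbs] at this
        have h2 := Int.emod_nonneg (v (2 * i)) h0
        omega
      obtain ⟨θ, hθ, c, hc⟩ := ih _ hlt v' rfl
      refine ⟨θ * (rot i * Ta i ^ k), mul_mem hθ (mul_mem hR (zpow_mem hT _)), c, ?_⟩
      rw [act_mul, act_mul, ← hv', hc]
      congr 1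
      rw [hv', act_rot, act_Ta_zpow]
      ext n
      simp only [Finsupp.add_apply, Finsupp.sub_apply, Finsupp.smul_apply, ea_apply,
        eb_apply, smul_eq_mul]
      by_cases n1 : n = 2 * i
      · subst n1
        simp
      · by_cases n2 : n = 2 * i + 1
        · subst n2
          simp
        · have n3 : ¬ (2 * i = 2 * i + 1) := by omega
          simp [n1, n2]

/-- the rotation on the plane of handle `i` -/
theorem act_rot_ea (i : ℕ) : act (rot i) (ea i) = eb i := by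
  rw [act_rot, ea_even, ea_odd, if_pos rfl]; simp
theorem act_rot_eb (i : ℕ) : act (rot i) (eb i) = - ea i := by
  rw [act_rot, eb_even, eb_odd, if_pos rfl]; simp; abel
theorem act_rot_ea_ne {i j : ℕ} (h : j ≠ i) : act (rot i) (ea j) = ea j :=
  M_fix_ea (rot_mem (s := i) (h := 1) le_rfl (by omega)) (by omega)
theorem act_rot_eb_ne {i j : ℕ} (h : j ≠ i) : act (rot i) (eb j) = eb j :=
  M_fix_eb (rot_mem (s := i) (h := 1) le_rfl (by omega)) (by omega)
theorem act_rot_inv_eb (i : ℕ) : act (rot i)⁻¹ (eb i) = ea i := by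
  rw [eq_comm, ← act_eq_iff, act_rot_ea]
theorem act_rot_inv_ea_ne {i j : ℕ} (h : j ≠ i) : act (rot i)⁻¹ (ea j) = ea j := by
  rw [eq_comm, ← act_eq_iff, act_rot_ea_ne h]

/-- `ea i ↦ ea i`, `ea (i+1) ↦ ea (i+1) + k ea i` -/
theorem SP_moveA (i : ℕ) (k : ℤ) : ∃ θ ∈ M i 2, act θ (ea i) = ea i ∧
    act θ (ea (i + 1)) = ea (i + 1) + k • ea i := by
  have hR1 : rot (i + 1) ∈ M i 2 := rot_mem (by omega) (by omega)
  have hP : P i ∈ M i 2 := P_mem_M le_rfl (by omega)
  refine ⟨(rot (i + 1))⁻¹ * P i ^ (-k) * rot (i + 1),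
    mul_mem (mul_mem (inv_mem hR1) (zpow_mem hP _)) hR1, ?_, ?_⟩
  · rw [act_mul, act_rot_ea_ne (by omega), act_mul, act_P_zpow, ea_odd, ea_odd]
    simp only [mul_zero, zero_smul, sub_zero]
    exact act_rot_inv_ea_ne (by omega)
  · rw [act_mul, act_rot_ea, act_mul, act_P_zpow, eb_odd, eb_odd, if_neg (by omega), if_pos rfl]
    simp only [mul_zero, zero_smul, sub_zero, mul_one, neg_smul, sub_neg_eq_add]
    rw [map_add, map_zsmul, act_rot_inv_eb, act_rot_inv_ea_ne (by omega)]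

/-- `ea i ↦ ea i + k ea (i+1)`, `ea (i+1) ↦ ea (i+1)` -/
theorem SP_moveB (i : ℕ) (k : ℤ) : ∃ θ ∈ M i 2, act θ (ea i) = ea i + k • ea (i + 1) ∧
    act θ (ea (i + 1)) = ea (i + 1) := by
  have hR0 : rot i ∈ M i 2 := rot_mem (by omega) (by omega)
  have hP : P i ∈ M i 2 := P_mem_M le_rfl (by omega)
  refine ⟨(rot i)⁻¹ * P i ^ (-k) * rot i,
    mul_mem (mul_mem (inv_mem hR0) (zpow_mem hP _)) hR0, ?_, ?_⟩
  · rw [act_mul, act_rot_ea, act_mul, act_P_zpow, eb_odd, eb_odd, if_pos rfl, if_neg (by omega)]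
    simp only [mul_zero, zero_smul, sub_zero, mul_one, neg_smul, sub_neg_eq_add]
    rw [map_add, map_zsmul, act_rot_inv_eb, act_rot_inv_ea_ne (by omega)]
  · rw [act_mul, act_rot_ea_ne (by omega), act_mul, act_P_zpow, ea_odd, ea_odd]
    simp only [mul_zero, zero_smul, sub_zero]
    exact act_rot_inv_ea_ne (by omega)

/-- two handles: `p • ea i + q • ea (i+1)` is moved to a multiple of `ea i` -/
theorem SP_two (i : ℕ) : ∀ N : ℕ, ∀ p q : ℤ, p.natAbs + q.natAbs = N →
    ∃ θ ∈ M i 2, ∃ c : ℤ, act θ (p • ea i + q • ea (i + 1)) = c • ea i := by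
  intro N
  induction N using Nat.strong_induction_on with
  | _ N ih =>
    intro p q hq
    by_cases h0 : q = 0
    · refine ⟨1, one_mem _, p, ?_⟩
      rw [act_one, h0]; simp
    by_cases h1 : p = 0
    · obtain ⟨θ, hθ, hθ1, hθ2⟩ := SP_moveA i 1
      obtain ⟨ψ, hψ, hψ1, hψ2⟩ := SP_moveB i (-1)
      refine ⟨ψ * θ, mul_mem hψ hθ, q, ?_⟩
      rw [act_mul, h1]
      simp only [zero_smul, zero_add, map_zsmul, hθ2, map_add, hψ1, hψ2, one_smul]
      congr 1
      simp
    by_cases h2 : p.natAbs ≤ q.natAbs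
    · obtain ⟨θ, hθ, hθ1, hθ2⟩ := SP_moveB i (-(q / p))
      have hlt : p.natAbs + (q % p).natAbs < N := by
        have h3 := Int.emod_lt_abs q h1
        rw [Int.abs_eq_natAbs] at h3
        have h4 := Int.emod_nonneg q h1
        omega
      obtain ⟨ψ, hψ, c, hc⟩ := ih _ hlt p (q % p) rfl
      refine ⟨ψ * θ, mul_mem hψ hθ, c, ?_⟩
      rw [act_mul, map_add, map_zsmul, map_zsmul, hθ1, hθ2, ← hc]
      congr 1
      have h5 : q % p = q - p * (q / p) := by
        have := Int.emod_add_mul_ediv q p; linarith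
      rw [h5, smul_add, smul_smul, sub_smul, mul_neg, neg_smul]
      abel
    · obtain ⟨θ, hθ, hθ1, hθ2⟩ := SP_moveA i (-(p / q))
      have hlt : (p % q).natAbs + q.natAbs < N := by
        have h3 := Int.emod_lt_abs p h0
        rw [Int.abs_eq_natAbs] at h3
        have h4 := Int.emod_nonneg p h0
        omega
      obtain ⟨ψ, hψ, c, hc⟩ := ih _ hlt (p % q) q rfl
      refine ⟨ψ * θ, mul_mem hψ hθ, c, ?_⟩
      rw [act_mul, map_add, map_zsmul, map_zsmul, hθ1, hθ2, ← hc]
      congr 1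
      have h5 : p % q = p - q * (p / q) := by
        have := Int.emod_add_mul_ediv p q; linarith
      rw [h5, smul_add, smul_smul, sub_smul, mul_neg, neg_smul]
      abel

/-- NORMAL FORM: every vector of `Vs s (h+1)` is moved to a multiple of `ea s`. -/
theorem SP_NF : ∀ (h s : ℕ) (v : Lat), v ∈ Vs s (h + 1) →
    ∃ θ ∈ M s (h + 1), ∃ c : ℤ, act θ v = c • ea s := by
  intro h
  induction h with
  | zero =>
    intro s v hv
    obtain ⟨θ, hθ, c, hc⟩ := SP_one s _ v rfl
    refine ⟨θ, hθ, c, ?_⟩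
    rw [hc, Vs_zero (Vs_split hv), zero_add]
  | succ h ih =>
    intro s v hv
    obtain ⟨θ1, hθ1, c1, hc1⟩ := SP_one s _ v rfl
    have hu := Vs_split hv
    obtain ⟨θ2, hθ2, c2, hc2⟩ := ih (s + 1) _ hu
    obtain ⟨θ3, hθ3, c3, hc3⟩ := SP_two s _ c1 c2 rfl
    refine ⟨θ3 * (θ2 * θ1), mul_mem (M_mono le_rfl (by omega) hθ3)
      (mul_mem (M_mono (by omega) (by omega) hθ2) (M_mono le_rfl (by omega) hθ1)), c3, ?_⟩
    rw [act_mul, act_mul, hc1, map_add, hc2, map_zsmul, M_fix_ea hθ2 (by omega), add_comm, hc3]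

/-- primitive vectors of `Vs s h` -/
def PrimV (s h : ℕ) (v : Lat) : Prop := v ∈ Vs s h ∧ ∃ w ∈ Vs s h, om v w = 1

theorem act_w_ea (i : ℕ) : act (w i) (ea i) = - eb i := by
  rw [act_ea, w_a, clv_inv, clv_b]
theorem act_w_eb (i : ℕ) : act (w i) (eb i) = eb i + ea i := by
  rw [act_eb, w_b, clv_mul, clv_b, clv_a]
theorem act_iota_ea (i : ℕ) : act (iota i) (ea i) = - ea i := by
  rw [iota, act_mul, act_mul, act_w_ea, map_neg, act_w_eb, map_neg, map_add, act_w_eb, act_w_ea]
  abel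
theorem act_iota_eb (i : ℕ) : act (iota i) (eb i) = - eb i := by
  rw [iota, act_mul, act_mul, act_w_eb, map_add, act_w_eb, act_w_ea]
  simp only [map_add, map_neg, act_w_eb, act_w_ea]
  abel

/-- SP1: transitivity on primitive vectors -/
theorem SP1 {s h : ℕ} {v : Lat} (hv : PrimV s h v) : ∃ θ ∈ M s h, act θ (ea s) = v := by
  obtain ⟨hv, u, hu, huv⟩ := hv
  cases h with
  | zero =>
    exfalso
    rw [Vs_zero hv] at huv
    simp at huv
  | succ h =>
    obtain ⟨θ, hθ, c, hc⟩ := SP_NF h s v hv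
    have h1 := M_om hθ v u
    rw [hc, huv, map_zsmul, AddMonoidHom.coe_smul, Pi.smul_apply, smul_eq_mul] at h1
    have h2 : c = 1 ∨ c = -1 := by
      have := Int.isUnit_iff.1 (IsUnit.of_mul_eq_one _ h1)
      exact this
    rcases h2 with h2 | h2
    · refine ⟨θ⁻¹, inv_mem hθ, ?_⟩
      rw [eq_comm, ← act_eq_iff, hc, h2, one_smul]
    · refine ⟨θ⁻¹ * (iota s)⁻¹, mul_mem (inv_mem hθ) (inv_mem (iota_mem_M le_rfl (by omega))), ?_⟩
      rw [act_mul]
      have : act (iota s)⁻¹ (ea s) = - ea s := by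
        rw [eq_comm, ← act_eq_iff, map_neg, act_iota_ea, neg_neg]
      rw [this, eq_comm, ← act_eq_iff, hc, h2]
      simp

end Pool.Agent.Torelli
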