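import Pool.Agent.Torelli.SP.Trans
import Pool.Agent.Torelli.Inter

/-!
# Torelli / SP / Witt

* `SP_push` : `Ma s h` moves `eb s` to any `v ∈ Vs s h` with `om (ea s) v = 1`, fixing `ea s`;
* `SP2` : `M s h` is transitive on partial symplectic bases of `Vs s h`;
* `SP3` : stabiliser of `ea s`; `SP3'` : stabiliser of `± ea s`;
* `SP4` : stabiliser of `Vs s k`.
-/

set_option autoImplicit false

namespace Pool.Agent.Torelli

theorem M_le_Ma (s h : ℕ) : M (s + 1) (h - 1) ≤ Ma s h := fun _ hx =>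
  Subgroup.subset_closure (Or.inl (Or.inl hx))
theorem Ta_mem_Ma (s h : ℕ) : Ta s ∈ Ma s h :=
  Subgroup.subset_closure (Or.inl (Or.inr rfl))
theorem P_mem_Ma {s h : ℕ} (hh : 2 ≤ h) : P s ∈ Ma s h :=
  Subgroup.subset_closure (Or.inr ⟨hh, rfl⟩)
theorem Ma_le_M {s h : ℕ} (hh : 1 ≤ h) : Ma s h ≤ M s h := by
  unfold Ma
  rw [Subgroup.closure_le]
  rintro φ ((hφ | rfl) | ⟨h2, rfl⟩)
  · exact M_mono (by omega) (by omega) hφ
  · exact Ta_mem_M le_rfl (by omega)
  · exact P_mem_M le_rfl (by omega)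

/-- `Ma s h` fixes `a s` -/
theorem Ma_fix_a {s h : ℕ} {θ : MulAut F} (hθ : θ ∈ Ma s h) : θ (a s) = a s := by
  have : Ma s h ≤ MulAction.stabilizer (MulAut F) (a s) := by
    unfold Ma
    rw [Subgroup.closure_le]
    rintro φ ((hφ | rfl) | ⟨h2, rfl⟩)
    · exact M_fix_a hφ (by omega)
    · exact Ta_a s s
    · exact P_a s
  exact this hθ

theorem Ma_fix_ea {s h : ℕ} {θ : MulAut F} (hθ : θ ∈ Ma s h) : act θ (ea s) = ea s := by
  rw [act_ea, Ma_fix_a hθ, clv_a]

/-- push: `Ma s h` fixes `ea s` and moves `eb s` to `eb s + c ea s + u`. -/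
theorem SP_push {s h : ℕ} (hh : 1 ≤ h) {v : Lat} (hv : v ∈ Vs s h) (h1 : om (ea s) v = 1) :
    ∃ m ∈ Ma s h, act m (ea s) = ea s ∧ act m (eb s) = v := by
  obtain ⟨g, rfl⟩ : ∃ g, h = g + 1 := ⟨h - 1, by omega⟩
  have hu := Vs_split hv
  rw [om_ea] at h1
  rw [h1, one_smul] at hu
  cases g with
  | zero =>
    have hu0 := Vs_zero hu
    refine ⟨Ta s ^ (v (2 * s)), zpow_mem (Ta_mem_Ma _ _) _, Ma_fix_ea (h := 1)
      (zpow_mem (Ta_mem_Ma _ _) _), ?_⟩
    rw [act_Ta_zpow, eb_odd, if_pos rfl, mul_one]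
    have : v = (v - v (2 * s) • ea s - eb s) + v (2 * s) • ea s + eb s := by abel
    rw [hu0] at this
    rw [this]
    simp only [Finsupp.add_apply, Finsupp.smul_apply, ea_even, eb_even, if_true,
      zero_add, smul_eq_mul, mul_one, add_zero]
    abel
  | succ k =>
    obtain ⟨γ, hγ, c, hc⟩ := SP_NF k (s + 1) _ hu
    have hγ1 : γ ∈ Ma s (k + 1 + 1) := M_le_Ma s _ hγ
    have hP : P s ∈ Ma s (k + 1 + 1) := P_mem_Ma (by omega)
    have hm : γ⁻¹ * P s ^ (-c) * γ * Ta s ^ (v (2 * s)) ∈ Ma s (k + 1 + 1) :=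
      mul_mem (mul_mem (mul_mem (inv_mem hγ1) (zpow_mem hP _)) hγ1)
        (zpow_mem (Ta_mem_Ma _ _) _)
    refine ⟨_, hm, Ma_fix_ea hm, ?_⟩
    have e1 : act γ (eb s) = eb s := M_fix_eb hγ (by omega)
    have e2 : act γ (ea s) = ea s := M_fix_ea hγ (by omega)
    rw [act_mul, act_Ta_zpow, eb_odd, if_pos rfl, mul_one, act_mul, act_mul, map_add, map_zsmul,
      e1, e2, act_P_zpow]
    simp only [Finsupp.add_apply, Finsupp.smul_apply, ea_odd, eb_odd, smul_zero, add_zero, if_true,
      mul_one, neg_smul, sub_neg_eq_add]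
    rw [if_neg (by omega), mul_zero, zero_smul, sub_zero, eq_comm, ← act_eq_iff]
    have : v = (v - v (2 * s) • ea s - eb s) + v (2 * s) • ea s + eb s := by abel
    conv_lhs => rw [this]
    rw [map_add, map_add, map_zsmul, hc, e1, e2]
    abel

/-- a partial symplectic basis of `Vs s h` (`k` pairs) -/
structure PartSymp (s h k : ℕ) (p q : ℕ → Lat) : Prop where
  memp : ∀ i < k, p i ∈ Vs s h
  memq : ∀ i < k, q i ∈ Vs s h
  pp : ∀ i < k, ∀ j < k, om (p i) (p j) = 0
  qq : ∀ i < k, ∀ j < k, om (q i) (q j) = 0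
  pq : ∀ i < k, ∀ j < k, om (p i) (q j) = if i = j then 1 else 0

theorem PartSymp.image {s h k : ℕ} {p q : ℕ → Lat} (hpq : PartSymp s h k p q) {θ : MulAut F}
    (hθ : θ ∈ M s h) : PartSymp s h k (fun i => act θ (p i)) (fun i => act θ (q i)) where
  memp := fun i hi => M_Vs hθ (hpq.memp i hi)
  memq := fun i hi => M_Vs hθ (hpq.memq i hi)
  pp := fun i hi j hj => by rw [M_om hθ]; exact hpq.pp i hi j hj
  qq := fun i hi j hj => by rw [M_om hθ]; exact hpq.qq i hi j hj
  pq := fun i hi j hj => by rw [M_om hθ]; exact hpq.pq i hi j hj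

theorem om_ea_eb (i j : ℕ) : om (ea i) (eb j) = if i = j then 1 else 0 := by
  rw [om_ea, eb_odd]
theorem om_ea_ea (i j : ℕ) : om (ea i) (ea j) = 0 := by rw [om_ea, ea_odd]
theorem om_eb_eb (i j : ℕ) : om (eb i) (eb j) = 0 := by rw [om_eb, eb_even, neg_zero]

theorem PartSymp_std {s h k : ℕ} (hk : k ≤ h) :
    PartSymp s h k (fun i => ea (s + i)) (fun i => eb (s + i)) where
  memp := fun i hi => ea_mem_Vs (by omega) (by omega)
  memq := fun i hi => eb_mem_Vs (by omega) (by omega)
  pp := fun i _ j _ => om_ea_ea _ _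
  qq := fun i _ j _ => om_eb_eb _ _
  pq := fun i _ j _ => by
    rw [om_ea_eb]; simp

/-- SP2: `M s h` is transitive on partial symplectic bases. -/
theorem SP2 : ∀ (k s h : ℕ) (p q : ℕ → Lat), PartSymp s h k p q →
    ∃ θ ∈ M s h, ∀ i < k, act θ (ea (s + i)) = p i ∧ act θ (eb (s + i)) = q i := by
  intro k
  induction k with
  | zero => intro s h p q _; exact ⟨1, one_mem _, fun i hi => absurd hi (by omega)⟩
  | succ k ih =>
    intro s h p q hpq
    have hh : 1 ≤ h := by
      by_contra hcon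
      have h0 : h = 0 := by omega
      subst h0
      have h1 := hpq.pq 0 (by omega) 0 (by omega)
      rw [Vs_zero (hpq.memp 0 (by omega))] at h1
      simp at h1
    -- first vector
    obtain ⟨θ1, hθ1, e1⟩ := SP1 (s := s) (h := h) (v := p 0)
      ⟨hpq.memp 0 (by omega), q 0, hpq.memq 0 (by omega), by
        rw [hpq.pq 0 (by omega) 0 (by omega), if_pos rfl]⟩
    have hpq1 := hpq.image (inv_mem hθ1)
    have e1' : act θ1⁻¹ (p 0) = ea s := by rw [← e1, act_inv_act]
    -- second vector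
    obtain ⟨m, hm, e2, e3⟩ := SP_push hh (hpq1.memq 0 (by omega)) (by
      have := hpq1.pq 0 (by omega) 0 (by omega)
      simp only [e1', if_true] at this
      exact this)
    have hmM : m ∈ M s h := Ma_le_M hh hm
    have hpq2 := hpq1.image (inv_mem hmM)
    have e4 : act m⁻¹ (act θ1⁻¹ (p 0)) = ea s := by rw [e1', ← e2, act_inv_act, e2]
    have e5 : act m⁻¹ (act θ1⁻¹ (q 0)) = eb s := by rw [← e3, act_inv_act]
    -- the others
    obtain ⟨g, rfl⟩ : ∃ g, h = g + 1 := ⟨h - 1, by omega⟩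
    have hpq3 : PartSymp (s + 1) g k (fun i => act m⁻¹ (act θ1⁻¹ (p (i + 1))))
        (fun i => act m⁻¹ (act θ1⁻¹ (q (i + 1)))) := by
      constructor
      · intro i hi
        apply Vs_of_orth (hpq2.memp (i + 1) (by omega))
        · have := hpq2.pp 0 (by omega) (i + 1) (by omega)
          simp only [e4] at this
          exact this
        · have := hpq2.pq (i + 1) (by omega) 0 (by omega)
          simp only [e5] at this
          rw [om_swap, this]; simp
      · intro i hi
        apply Vs_of_orth (hpq2.memq (i + 1) (by omega))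
        · have := hpq2.pq 0 (by omega) (i + 1) (by omega)
          simp only [e4] at this
          rw [this]; simp
        · have := hpq2.qq 0 (by omega) (i + 1) (by omega)
          simp only [e5] at this
          exact this
      · intro i hi j hj; exact hpq2.pp (i + 1) (by omega) (j + 1) (by omega)
      · intro i hi j hj; exact hpq2.qq (i + 1) (by omega) (j + 1) (by omega)
      · intro i hi j hj
        rw [hpq2.pq (i + 1) (by omega) (j + 1) (by omega)]; simp
    obtain ⟨θ2, hθ2, h2⟩ := ih (s + 1) g _ _ hpq3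
    refine ⟨θ1 * m * θ2, mul_mem (mul_mem hθ1 hmM) (M_mono (by omega) (by omega) hθ2), ?_⟩
    intro i hi
    rw [act_mul, act_mul, act_mul, act_mul]
    cases i with
    | zero =>
      rw [add_zero, M_fix_ea hθ2 (by omega), M_fix_eb hθ2 (by omega), e2, e3, e1, act_act_inv]
      exact ⟨rfl, rfl⟩
    | succ i =>
      have h3 := h2 i (by omega)
      have e : s + (i + 1) = s + 1 + i := by ring
      rw [e, h3.1, h3.2, act_act_inv, act_act_inv, act_act_inv, act_act_inv]
      exact ⟨rfl, rfl⟩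

/-- elements of `M s h` acting in the same way on the basis differ by `Tor s h` -/
theorem Tor_of_agree {s h : ℕ} {θ ψ : MulAut F} (hθ : θ ∈ M s h) (hψ : ψ ∈ M s h)
    (he : ∀ i < h, act θ (ea (s + i)) = act ψ (ea (s + i)) ∧
      act θ (eb (s + i)) = act ψ (eb (s + i))) : ψ⁻¹ * θ ∈ Tor s h := by
  have hM : ψ⁻¹ * θ ∈ M s h := mul_mem (inv_mem hψ) hθ
  refine ⟨hM, M_mem_IA hM ?_ ?_⟩
  · intro i h1 h2
    obtain ⟨j, rfl⟩ := Nat.exists_eq_add_of_le h1
    rw [act_mul, (he j (by omega)).1, act_inv_act]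
  · intro i h1 h2
    obtain ⟨j, rfl⟩ := Nat.exists_eq_add_of_le h1
    rw [act_mul, (he j (by omega)).2, act_inv_act]

/-- SP3: the stabiliser of `ea s` in `M s h` is `Ma s h * Tor s h`. -/
theorem SP3 {s h : ℕ} (hh : 1 ≤ h) {θ : MulAut F} (hθ : θ ∈ M s h) (h1 : act θ (ea s) = ea s) :
    ∃ m ∈ Ma s h, ∃ ψ ∈ Tor s h, θ = m * ψ := by
  obtain ⟨m, hm, e1, e2⟩ := SP_push hh (M_Vs hθ (eb_mem_Vs (i := s) le_rfl (by omega))) (by
    have := M_om hθ (ea s) (eb s)
    rw [h1, om_ea_eb, if_pos rfl] at this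
    exact this)
  have hmM : m ∈ M s h := Ma_le_M hh hm
  have h2 : m⁻¹ * θ ∈ M s h := mul_mem (inv_mem hmM) hθ
  have e3 : act (m⁻¹ * θ) (ea s) = ea s := by rw [act_mul, h1, ← e1, act_inv_act, e1]
  have e4 : act (m⁻¹ * θ) (eb s) = eb s := by rw [act_mul, ← e2, act_inv_act]
  obtain ⟨g, rfl⟩ : ∃ g, h = g + 1 := ⟨h - 1, by omega⟩
  have hstd := (PartSymp_std (s := s) (h := g + 1) (k := g + 1) le_rfl).image h2
  have hps : PartSymp (s + 1) g g (fun i => act (m⁻¹ * θ) (ea (s + 1 + i)))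
      (fun i => act (m⁻¹ * θ) (eb (s + 1 + i))) := by
    have e : ∀ i, s + 1 + i = s + (i + 1) := fun i => by ring
    constructor
    · intro i hi
      rw [e]
      apply Vs_of_orth (hstd.memp (i + 1) (by omega))
      · have := hstd.pp 0 (by omega) (i + 1) (by omega)
        simp only [add_zero, e3] at this
        exact this
      · have := hstd.pq (i + 1) (by omega) 0 (by omega)
        simp only [add_zero, e4] at this
        rw [om_swap, this]; simp
    · intro i hi
      rw [e]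
      apply Vs_of_orth (hstd.memq (i + 1) (by omega))
      · have := hstd.pq 0 (by omega) (i + 1) (by omega)
        simp only [add_zero, e3] at this
        rw [this]; simp
      · have := hstd.qq 0 (by omega) (i + 1) (by omega)
        simp only [add_zero, e4] at this
        exact this
    · intro i hi j hj; rw [e, e]; exact hstd.pp (i + 1) (by omega) (j + 1) (by omega)
    · intro i hi j hj; rw [e, e]; exact hstd.qq (i + 1) (by omega) (j + 1) (by omega)
    · intro i hi j hj
      rw [e, e, hstd.pq (i + 1) (by omega) (j + 1) (by omega)]; simp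
  obtain ⟨θ2, hθ2, h3⟩ := SP2 g (s + 1) g _ _ hps
  have hθ2M : θ2 ∈ M s (g + 1) := M_mono (by omega) (by omega) hθ2
  refine ⟨m * θ2, mul_mem hm (M_le_Ma s (g + 1) hθ2), (m * θ2)⁻¹ * θ, ?_, by group⟩
  apply Tor_of_agree hθ (mul_mem hmM hθ2M)
  intro i hi
  have hk : ∀ v, act θ v = act m (act (m⁻¹ * θ) v) := fun v => by
    rw [act_mul, act_act_inv]
  cases i with
  | zero =>
    rw [add_zero, hk, hk, e3, e4, act_mul, act_mul, M_fix_ea hθ2 (by omega),
      M_fix_eb hθ2 (by omega)]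
    exact ⟨rfl, rfl⟩
  | succ i =>
    have e : s + (i + 1) = s + 1 + i := by ring
    have h4 := h3 i (by omega)
    rw [e, hk, hk, ← h4.1, ← h4.2, act_mul, act_mul]
    exact ⟨rfl, rfl⟩

/-- `iota s` acts as `-1` on `ea s`; SP3 with signs -/
theorem SP3' {s h : ℕ} (hh : 1 ≤ h) {θ : MulAut F} (hθ : θ ∈ M s h)
    (h1 : act θ (ea s) = ea s ∨ act θ (ea s) = - ea s) :
    ∃ m, (m ∈ Ma s h ∨ ∃ m' ∈ Ma s h, m = iota s * m') ∧ ∃ ψ ∈ Tor s h, θ = m * ψ := by
  rcases h1 with h1 | h1
  · obtain ⟨m, hm, ψ, hψ, e⟩ := SP3 hh hθ h1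
    exact ⟨m, Or.inl hm, ψ, hψ, e⟩
  · have hi : iota s ∈ M s h := iota_mem_M le_rfl (by omega)
    obtain ⟨m, hm, ψ, hψ, e⟩ := SP3 hh (mul_mem (inv_mem hi) hθ) (by
      rw [act_mul, h1, eq_comm, ← act_eq_iff, act_iota_ea])
    refine ⟨iota s * m, Or.inr ⟨m, hm, rfl⟩, ψ, hψ, ?_⟩
    rw [mul_assoc, ← e]; group

/-- a vector of `Vs s h` orthogonal to `Vs s k` lies in `Vs (s+k) (h-k)` -/
theorem Vs_of_orth_many : ∀ (k s h : ℕ) (v : Lat), v ∈ Vs s (k + h) →
    (∀ i < k, om (ea (s + i)) v = 0) → (∀ i < k, om (eb (s + i)) v = 0) → v ∈ Vs (s + k) h := by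
  intro k s h v hv ha hb n hn
  by_cases h1 : n < 2 * s ∨ 2 * (s + (k + h)) ≤ n
  · exact hv n h1
  · have h2 : n < 2 * (s + k) := by omega
    rcases Nat.even_or_odd' n with ⟨j, hj | hj⟩
    · have := hb (j - s) (by omega)
      rw [om_eb] at this
      have e : s + (j - s) = j := by omega
      rw [e] at this
      rw [hj]; omega
    · have := ha (j - s) (by omega)
      rw [om_ea] at this
      have e : s + (j - s) = j := by omega
      rw [e] at this
      rw [hj]; exact this

/-- SP4: an element of `M s (k+h)` that maps `Vs s k` into itself is a product of an element of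
`M s k`, an element of `M (s+k) h` and an element of `Tor s (k+h)`. -/
theorem SP4 {s k h : ℕ} {θ : MulAut F} (hθ : θ ∈ M s (k + h))
    (h1 : ∀ v ∈ Vs s k, act θ v ∈ Vs s k) :
    ∃ θ1 ∈ M s k, ∃ θ2 ∈ M (s + k) h, ∃ ψ ∈ Tor s (k + h), θ = θ1 * θ2 * ψ := by
  have hstd := (PartSymp_std (s := s) (h := k + h) (k := k + h) le_rfl).image hθ
  have hps : PartSymp s k k (fun i => act θ (ea (s + i))) (fun i => act θ (eb (s + i))) := by
    constructor
    · intro i hi; exact h1 _ (ea_mem_Vs (by omega) (by omega))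
    · intro i hi; exact h1 _ (eb_mem_Vs (by omega) (by omega))
    · intro i hi j hj; exact hstd.pp i (by omega) j (by omega)
    · intro i hi j hj; exact hstd.qq i (by omega) j (by omega)
    · intro i hi j hj; exact hstd.pq i (by omega) j (by omega)
  obtain ⟨θ1, hθ1, h2⟩ := SP2 k s k _ _ hps
  have hθ1M : θ1 ∈ M s (k + h) := M_mono le_rfl (by omega) hθ1
  have h3M : θ1⁻¹ * θ ∈ M s (k + h) := mul_mem (inv_mem hθ1M) hθ
  have hfix : ∀ i < k, act (θ1⁻¹ * θ) (ea (s + i)) = ea (s + i) ∧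
      act (θ1⁻¹ * θ) (eb (s + i)) = eb (s + i) := by
    intro i hi
    rw [act_mul, act_mul, ← (h2 i hi).1, ← (h2 i hi).2, act_inv_act, act_inv_act]
    exact ⟨rfl, rfl⟩
  have hstd2 := (PartSymp_std (s := s) (h := k + h) (k := k + h) le_rfl).image h3M
  have hps2 : PartSymp (s + k) h h (fun i => act (θ1⁻¹ * θ) (ea (s + k + i)))
      (fun i => act (θ1⁻¹ * θ) (eb (s + k + i))) := by
    have e : ∀ i, s + k + i = s + (k + i) := fun i => by ring
    constructor
    · intro i hi
      rw [e]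
      apply Vs_of_orth_many k s h _ (hstd2.memp (k + i) (by omega))
      · intro j hj
        have := hstd2.pp j (by omega) (k + i) (by omega)
        simp only [(hfix j hj).1] at this
        exact this
      · intro j hj
        have := hstd2.pq (k + i) (by omega) j (by omega)
        simp only [(hfix j hj).2] at this
        rw [om_swap, this, if_neg (by omega)]; simp
    · intro i hi
      rw [e]
      apply Vs_of_orth_many k s h _ (hstd2.memq (k + i) (by omega))
      · intro j hj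
        have := hstd2.pq j (by omega) (k + i) (by omega)
        simp only [(hfix j hj).1] at this
        rw [this, if_neg (by omega)]
      · intro j hj
        have := hstd2.qq j (by omega) (k + i) (by omega)
        simp only [(hfix j hj).2] at this
        exact this
    · intro i hi j hj; rw [e, e]; exact hstd2.pp (k + i) (by omega) (k + j) (by omega)
    · intro i hi j hj; rw [e, e]; exact hstd2.qq (k + i) (by omega) (k + j) (by omega)
    · intro i hi j hj
      rw [e, e, hstd2.pq (k + i) (by omega) (k + j) (by omega)]; simp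
  obtain ⟨θ2, hθ2, h4⟩ := SP2 h (s + k) h _ _ hps2
  have hθ2M : θ2 ∈ M s (k + h) := M_mono (by omega) (by omega) hθ2
  refine ⟨θ1, hθ1, θ2, hθ2, (θ1 * θ2)⁻¹ * θ, ?_, by group⟩
  apply Tor_of_agree hθ (mul_mem hθ1M hθ2M)
  intro i hi
  have hk : ∀ v, act θ v = act θ1 (act (θ1⁻¹ * θ) v) := fun v => by
    rw [act_mul, act_act_inv]
  by_cases hik : i < k
  · rw [hk, hk, (hfix i hik).1, (hfix i hik).2, act_mul, act_mul, M_fix_ea hθ2 (by omega),
      M_fix_eb hθ2 (by omega)]
    exact ⟨rfl, rfl⟩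
  · obtain ⟨j, rfl⟩ : ∃ j, i = k + j := ⟨i - k, by omega⟩
    have h5 := h4 j (by omega)
    have e : s + (k + j) = s + k + j := by ring
    rw [e, hk, hk, ← h5.1, ← h5.2, act_mul, act_mul]
    exact ⟨rfl, rfl⟩

end Pool.Agent.Torelli
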