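import Pool.Agent.Torelli.Basic

/-!
# Torelli / SP / Act : the action on homology and the symplectic form

* `Lat = ℕ →₀ ℤ`, `clv x = toAdd (cl x)`, `act θ : Lat →+ Lat`, `act_clv`, `act_mul`, `act_one`;
* `ea i`, `eb i` basis vectors, `om` symplectic form, `Vs s h` the lattice of the handles `s..s+h-1`;
* formulas for `act (Ta i)`, `act (Tb i)`, `act (P i)` and invariance of `om`, `Vs` under `M s h`.
-/

set_option autoImplicit false

namespace Pool.Agent.Torelli

/-- the homology lattice -/
abbrev Lat := ℕ →₀ ℤ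

/-- additive version of `cl` -/
noncomputable def clv (x : F) : Lat := Multiplicative.toAdd (cl x)

theorem clv_mul (x y : F) : clv (x * y) = clv x + clv y := by simp [clv]
theorem clv_one : clv 1 = 0 := by simp [clv]
theorem clv_inv (x : F) : clv x⁻¹ = - clv x := by simp [clv]
theorem clv_pow (x : F) (n : ℕ) : clv (x ^ n) = n • clv x := by simp [clv]
theorem clv_zpow (x : F) (n : ℤ) : clv (x ^ n) = n • clv x := by simp [clv]
theorem clv_of (n : ℕ) : clv (FreeGroup.of n) = Finsupp.single n 1 := by simp [clv, cl_of]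
theorem clv_eq_iff {x y : F} : clv x = clv y ↔ cl x = cl y := by
  unfold clv; exact Multiplicative.toAdd.injective.eq_iff
theorem clv_eq_zero_iff {x : F} : clv x = 0 ↔ cl x = 1 := by
  rw [← clv_one, clv_eq_iff, map_one]

/-- basis vectors -/
noncomputable def ea (i : ℕ) : Lat := Finsupp.single (2 * i) 1
noncomputable def eb (i : ℕ) : Lat := Finsupp.single (2 * i + 1) 1

theorem clv_a (i : ℕ) : clv (a i) = ea i := clv_of _
theorem clv_b (i : ℕ) : clv (b i) = eb i := clv_of _
theorem clv_d (i : ℕ) : clv (d i) = - ea i := by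
  simp only [d, clv_mul, clv_inv, clv_a, clv_b]; abel
theorem clv_H (i : ℕ) : clv (H i) = 0 := by rw [clv_eq_zero_iff, cl_H]

/-- the action of an automorphism on the abelianisation -/
noncomputable def act (θ : MulAut F) : Lat →+ Lat :=
  Finsupp.liftAddHom (fun n => (zmultiplesHom Lat) (clv (θ (FreeGroup.of n))))

theorem act_single (θ : MulAut F) (n : ℕ) (k : ℤ) :
    act θ (Finsupp.single n k) = k • clv (θ (FreeGroup.of n)) := by
  simp [act]

theorem act_clv (θ : MulAut F) (x : F) : act θ (clv x) = clv (θ x) := by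
  have h : (AddMonoidHom.toMultiplicative (act θ)).comp cl = cl.comp θ.toMonoidHom := by
    apply hom_ext_of
    intro n
    apply Multiplicative.toAdd.injective
    change act θ (Multiplicative.toAdd (cl (FreeGroup.of n))) =
      Multiplicative.toAdd (cl (θ (FreeGroup.of n)))
    rw [cl_of, toAdd_ofAdd, act_single, one_smul]
    rfl
  exact congrArg Multiplicative.toAdd (DFunLike.congr_fun h x)

theorem act_ea (θ : MulAut F) (i : ℕ) : act θ (ea i) = clv (θ (a i)) := by
  rw [← clv_a, act_clv]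
theorem act_eb (θ : MulAut F) (i : ℕ) : act θ (eb i) = clv (θ (b i)) := by
  rw [← clv_b, act_clv]

/-- additive maps on `Lat` that agree on the basis are equal -/
theorem lat_hom_ext {A : Type*} [AddCommGroup A] {f g : Lat →+ A}
    (ha : ∀ i, f (ea i) = g (ea i)) (hb : ∀ i, f (eb i) = g (eb i)) : f = g := by
  apply Finsupp.addHom_ext
  intro n k
  have h1 : (Finsupp.single n k : Lat) = k • Finsupp.single n (1 : ℤ) := by simp
  rw [h1, map_zsmul, map_zsmul]
  congr 1
  rcases Nat.even_or_odd' n with ⟨m, h | h⟩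
  · subst h; exact ha m
  · subst h; exact hb m

theorem act_mul (θ ψ : MulAut F) (v : Lat) : act (θ * ψ) v = act θ (act ψ v) := by
  have : act (θ * ψ) = (act θ).comp (act ψ) := by
    apply lat_hom_ext
    · intro i; rw [AddMonoidHom.comp_apply, act_ea, act_ea, act_clv, MulAut.mul_apply]
    · intro i; rw [AddMonoidHom.comp_apply, act_eb, act_eb, act_clv, MulAut.mul_apply]
  rw [this]; rfl

theorem act_one (v : Lat) : act 1 v = v := by
  have : act 1 = AddMonoidHom.id Lat := by
    apply lat_hom_ext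
    · intro i; rw [act_ea, MulAut.one_apply, clv_a]; rfl
    · intro i; rw [act_eb, MulAut.one_apply, clv_b]; rfl
  rw [this]; rfl

theorem act_inv_act (θ : MulAut F) (v : Lat) : act θ⁻¹ (act θ v) = v := by
  rw [← act_mul, inv_mul_cancel, act_one]
theorem act_act_inv (θ : MulAut F) (v : Lat) : act θ (act θ⁻¹ v) = v := by
  rw [← act_mul, mul_inv_cancel, act_one]
theorem act_inj (θ : MulAut F) {v w : Lat} (h : act θ v = act θ w) : v = w := by
  rw [← act_inv_act θ v, h, act_inv_act]
theorem act_eq_iff (θ : MulAut F) {v w : Lat} : act θ v = w ↔ v = act θ⁻¹ w := by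
  constructor
  · rintro rfl; rw [act_inv_act]
  · rintro rfl; rw [act_act_inv]

theorem mem_IA_iff_act {θ : MulAut F} : θ ∈ IA ↔ ∀ v, act θ v = v := by
  constructor
  · intro h v
    have : act θ = AddMonoidHom.id Lat := by
      apply lat_hom_ext
      · intro i; rw [act_ea, clv_eq_iff.2 (h (a i)), clv_a]; rfl
      · intro i; rw [act_eb, clv_eq_iff.2 (h (b i)), clv_b]; rfl
    rw [this]; rfl
  · intro h x
    rw [← clv_eq_iff, ← act_clv, h]

theorem IA_act {θ : MulAut F} (h : θ ∈ IA) (v : Lat) : act θ v = v := mem_IA_iff_act.1 h v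

/-! ## formulas -/

theorem ea_apply (i n : ℕ) : ea i n = if n = 2 * i then 1 else 0 := by
  unfold ea; rw [Finsupp.single_apply]; simp [eq_comm]
theorem eb_apply (i n : ℕ) : eb i n = if n = 2 * i + 1 then 1 else 0 := by
  unfold eb; rw [Finsupp.single_apply]; simp [eq_comm]
theorem ea_even (i j : ℕ) : ea i (2 * j) = if j = i then 1 else 0 := by
  rw [ea_apply]; congr 1; simp
theorem ea_odd (i j : ℕ) : ea i (2 * j + 1) = 0 := by rw [ea_apply, if_neg (by omega)]
theorem eb_even (i j : ℕ) : eb i (2 * j) = 0 := by rw [eb_apply, if_neg (by omega)]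
theorem eb_odd (i j : ℕ) : eb i (2 * j + 1) = if j = i then 1 else 0 := by
  rw [eb_apply]; congr 1; simp

/-- coordinates -/
noncomputable def co (n : ℕ) : Lat →+ ℤ := Finsupp.applyAddHom n
theorem co_apply (n : ℕ) (v : Lat) : co n v = v n := rfl

theorem act_Ta (i : ℕ) (v : Lat) : act (Ta i) v = v + v (2 * i + 1) • ea i := by
  have : act (Ta i) = AddMonoidHom.id Lat + ((zmultiplesHom Lat) (ea i)).comp (co (2 * i + 1)) := by
    apply lat_hom_ext
    · intro j
      rw [act_ea, Ta_a, clv_a]
      simp [co_apply, ea_odd]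
    · intro j
      rw [act_eb]
      by_cases h : j = i
      · subst h; rw [Ta_b, clv_mul, clv_a, clv_b]; simp [co_apply, eb_odd]
      · rw [Ta_b_ne h, clv_b]; simp [co_apply, eb_odd, Ne.symm h]
  rw [this]; rfl

theorem act_Tb (i : ℕ) (v : Lat) : act (Tb i) v = v + v (2 * i) • eb i := by
  have : act (Tb i) = AddMonoidHom.id Lat + ((zmultiplesHom Lat) (eb i)).comp (co (2 * i)) := by
    apply lat_hom_ext
    · intro j
      rw [act_ea]
      by_cases h : j = i
      · subst h; rw [Tb_a, clv_mul, clv_a, clv_b]; simp [co_apply, ea_even]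
      · rw [Tb_a_ne h, clv_a]; simp [co_apply, ea_even, Ne.symm h]
    · intro j
      rw [act_eb, Tb_b, clv_b]
      simp [co_apply, eb_even]
  rw [this]; rfl

theorem act_P (i : ℕ) (v : Lat) : act (P i) v =
    v - v (2 * i + 1) • ea (i + 1) - v (2 * (i + 1) + 1) • ea i := by
  have : act (P i) = AddMonoidHom.id Lat -
      ((zmultiplesHom Lat) (ea (i + 1))).comp (co (2 * i + 1)) -
      ((zmultiplesHom Lat) (ea i)).comp (co (2 * (i + 1) + 1)) := by
    apply lat_hom_ext
    · intro j
      rw [act_ea]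
      by_cases h : j = i + 1
      · subst h
        rw [P_x]
        simp only [clv_mul, clv_inv, clv_a, clv_d, AddMonoidHom.sub_apply, AddMonoidHom.comp_apply,
          co_apply, ea_odd, map_zero, AddMonoidHom.id_apply]
        abel
      · rw [P_a_ne h, clv_a]
        simp [co_apply, ea_odd]
    · intro j
      rw [act_eb]
      by_cases h : j = i
      · subst h; rw [P_b, clv_mul, clv_inv, clv_a, clv_b]
        simp [co_apply, eb_odd]; abel
      by_cases h' : j = i + 1
      · subst h'
        rw [P_y]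
        simp [clv_mul, clv_inv, clv_a, clv_b, clv_d, co_apply, eb_odd]
        abel
      · rw [P_b_ne h h', clv_b]
        simp [co_apply, eb_odd, Ne.symm h, Ne.symm h']
  rw [this]; rfl

/-- The symplectic form: `om (ea i) (eb i) = 1`. -/
noncomputable def om : Lat →+ Lat →+ ℤ :=
  Finsupp.liftAddHom (fun n =>
    (zmultiplesHom (Lat →+ ℤ)) (if n % 2 = 0 then co (n + 1) else - co (n - 1)))

theorem om_ea (i : ℕ) (v : Lat) : om (ea i) v = v (2 * i + 1) := by
  unfold om ea
  rw [Finsupp.liftAddHom_apply_single]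
  simp [co_apply]
theorem om_eb (i : ℕ) (v : Lat) : om (eb i) v = - v (2 * i) := by
  unfold om eb
  rw [Finsupp.liftAddHom_apply_single]
  have : ¬ ((2 * i + 1) % 2 = 0) := by omega
  simp [co_apply, this]

/-- flip of the arguments -/
theorem om_swap (v w : Lat) : om v w = - om w v := by
  have h : om = -(om.flip) := by
    apply lat_hom_ext
    · intro i
      apply lat_hom_ext
      · intro j
        simp only [AddMonoidHom.neg_apply, AddMonoidHom.flip_apply, om_ea, ea_odd, neg_zero]
      · intro j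
        simp only [AddMonoidHom.neg_apply, AddMonoidHom.flip_apply, om_ea, om_eb, eb_odd, ea_even,
          neg_neg]
        simp [eq_comm]
    · intro i
      apply lat_hom_ext
      · intro j
        simp only [AddMonoidHom.neg_apply, AddMonoidHom.flip_apply, om_ea, om_eb, eb_odd, ea_even]
        simp [eq_comm]
      · intro j
        simp only [AddMonoidHom.neg_apply, AddMonoidHom.flip_apply, om_eb, eb_even, neg_zero]
  have := DFunLike.congr_fun (DFunLike.congr_fun h v) w
  simpa using this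

theorem om_self (v : Lat) : om v v = 0 := by
  have := om_swap v v
  omega

theorem om_ea_right (i : ℕ) (v : Lat) : om v (ea i) = - v (2 * i + 1) := by
  rw [om_swap, om_ea]
theorem om_eb_right (i : ℕ) (v : Lat) : om v (eb i) = v (2 * i) := by
  rw [om_swap, om_eb, neg_neg]

/-- automorphisms preserving the form -/
def PresOm : Subgroup (MulAut F) where
  carrier := {θ | ∀ v w, om (act θ v) (act θ w) = om v w}
  one_mem' := fun v w => by rw [act_one, act_one]
  mul_mem' := fun {θ ψ} h1 h2 v w => by rw [act_mul, act_mul, h1, h2]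
  inv_mem' := fun {θ} h v w => by
    rw [← h (act θ⁻¹ v) (act θ⁻¹ w), act_act_inv, act_act_inv]

theorem Ta_om (i : ℕ) : Ta i ∈ PresOm := fun v w => by
  simp only [act_Ta, map_add, AddMonoidHom.add_apply, map_zsmul, AddMonoidHom.coe_smul,
    Pi.smul_apply, om_ea, om_ea_right, smul_eq_mul, ea_odd]
  ring
theorem Tb_om (i : ℕ) : Tb i ∈ PresOm := fun v w => by
  simp only [act_Tb, map_add, AddMonoidHom.add_apply, map_zsmul, AddMonoidHom.coe_smul,
    Pi.smul_apply, om_eb, om_eb_right, smul_eq_mul, eb_even]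
  ring
theorem P_om (i : ℕ) : P i ∈ PresOm := fun v w => by
  simp only [act_P, map_sub, AddMonoidHom.sub_apply, map_zsmul, AddMonoidHom.coe_smul,
    Pi.smul_apply, om_ea, om_ea_right, smul_eq_mul, ea_odd]
  ring

theorem M_om {s h : ℕ} {θ : MulAut F} (hθ : θ ∈ M s h) (v w : Lat) :
    om (act θ v) (act θ w) = om v w :=
  (M_le (K := PresOm) (fun i _ _ => Ta_om i) (fun i _ _ => Tb_om i) (fun i _ _ => P_om i) hθ) v w

/-- the lattice of the handles `s, ..., s+h-1` -/
def Vs (s h : ℕ) : AddSubgroup Lat where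
  carrier := {v | ∀ n, (n < 2 * s ∨ 2 * (s + h) ≤ n) → v n = 0}
  zero_mem' := fun _ _ => rfl
  add_mem' := fun {v w} hv hw n hn => by rw [Finsupp.add_apply, hv n hn, hw n hn, add_zero]
  neg_mem' := fun {v} hv n hn => by rw [Finsupp.neg_apply, hv n hn, neg_zero]

theorem mem_Vs {s h : ℕ} {v : Lat} : v ∈ Vs s h ↔ ∀ n, (n < 2 * s ∨ 2 * (s + h) ≤ n) → v n = 0 :=
  Iff.rfl

theorem ea_mem_Vs {s h i : ℕ} (h1 : s ≤ i) (h2 : i < s + h) : ea i ∈ Vs s h := fun n hn => by
  rw [ea_apply, if_neg (by omega)]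
theorem eb_mem_Vs {s h i : ℕ} (h1 : s ≤ i) (h2 : i < s + h) : eb i ∈ Vs s h := fun n hn => by
  rw [eb_apply, if_neg (by omega)]
theorem Vs_mono {s h s' h' : ℕ} (h1 : s ≤ s') (h2 : s' + h' ≤ s + h) : Vs s' h' ≤ Vs s h :=
  fun _ hv n hn => hv n (by omega)

/-- elements of `M s h` move vectors by elements of `Vs s h` and preserve it;
they fix the vectors supported outside -/
def PresV (s h : ℕ) : Subgroup (MulAut F) where
  carrier := {θ | ∀ v, act θ v - v ∈ Vs s h}
  one_mem' := fun v => by rw [act_one, sub_self]; exact zero_mem _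
  mul_mem' := fun {θ ψ} h1 h2 v => by
    have e : act (θ * ψ) v - v = (act θ (act ψ v) - act ψ v) + (act ψ v - v) := by
      rw [act_mul]; abel
    rw [e]; exact add_mem (h1 _) (h2 _)
  inv_mem' := fun {θ} h v => by
    have := h (act θ⁻¹ v)
    rw [act_act_inv] at this
    have h2 := neg_mem this
    rwa [neg_sub] at h2

theorem M_PresV {s h : ℕ} {θ : MulAut F} (hθ : θ ∈ M s h) (v : Lat) : act θ v - v ∈ Vs s h := by
  refine (M_le (K := PresV s h) (fun i h1 h2 v => ?_) (fun i h1 h2 v => ?_)
    (fun i h1 h2 v => ?_) hθ) v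
  · rw [act_Ta, add_sub_cancel_left]
    exact AddSubgroup.zsmul_mem _ (ea_mem_Vs h1 h2) _
  · rw [act_Tb, add_sub_cancel_left]
    exact AddSubgroup.zsmul_mem _ (eb_mem_Vs h1 h2) _
  · rw [act_P]
    have e : v - v (2 * i + 1) • ea (i + 1) - v (2 * (i + 1) + 1) • ea i - v =
      -(v (2 * i + 1) • ea (i + 1)) - v (2 * (i + 1) + 1) • ea i := by abel
    rw [e]
    exact sub_mem (neg_mem (AddSubgroup.zsmul_mem _ (ea_mem_Vs (by omega) h2) _))
      (AddSubgroup.zsmul_mem _ (ea_mem_Vs h1 (by omega)) _)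

theorem M_Vs {s h : ℕ} {θ : MulAut F} (hθ : θ ∈ M s h) {v : Lat} (hv : v ∈ Vs s h) :
    act θ v ∈ Vs s h := by
  have := add_mem (M_PresV hθ v) hv
  rwa [sub_add_cancel] at this

/-- a vector orthogonal to the lattice of the handles is zero there -/
theorem fix_of_outside {s h : ℕ} {θ : MulAut F} (hθ : θ ∈ M s h) {v : Lat}
    (hv : ∀ n, 2 * s ≤ n → n < 2 * (s + h) → v n = 0) : act θ v = v := by
  have h1 : ∀ i, i < s ∨ s + h ≤ i → act θ (ea i) = ea i ∧ act θ (eb i) = eb i := fun i hi => by
    rw [act_ea, act_eb, M_fix_a hθ hi, M_fix_b hθ hi, clv_a, clv_b]; exact ⟨rfl, rfl⟩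
  have h2 : ∀ n, n ∈ v.support → act θ (Finsupp.single n (v n)) = Finsupp.single n (v n) := by
    intro n hn
    have hn' : n < 2 * s ∨ 2 * (s + h) ≤ n := by
      by_contra hcon
      push Not at hcon
      exact (Finsupp.mem_support_iff.1 hn) (hv n hcon.1 hcon.2)
    rw [act_single, M_fix_of hθ hn', clv_of]
    simp
  conv_lhs => rw [← Finsupp.sum_single v]
  conv_rhs => rw [← Finsupp.sum_single v]
  unfold Finsupp.sum
  rw [map_sum]
  exact Finset.sum_congr rfl h2

theorem M_fix_Vs {s h s' h' : ℕ} {θ : MulAut F} (hθ : θ ∈ M s h)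
    (hd : s' + h' ≤ s ∨ s + h ≤ s') {v : Lat} (hv : v ∈ Vs s' h') : act θ v = v :=
  fix_of_outside hθ (fun n h1 h2 => hv n (by omega))

theorem M_fix_ea {s h : ℕ} {θ : MulAut F} (hθ : θ ∈ M s h) {i : ℕ} (hi : i < s ∨ s + h ≤ i) :
    act θ (ea i) = ea i := by rw [act_ea, M_fix_a hθ hi, clv_a]
theorem M_fix_eb {s h : ℕ} {θ : MulAut F} (hθ : θ ∈ M s h) {i : ℕ} (hi : i < s ∨ s + h ≤ i) :
    act θ (eb i) = eb i := by rw [act_eb, M_fix_b hθ hi, clv_b]

/-- an element of `M s h` is in `IA` iff it fixes the classes of the letters of the handles -/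
theorem M_mem_IA {s h : ℕ} {θ : MulAut F} (hθ : θ ∈ M s h)
    (ha : ∀ i, s ≤ i → i < s + h → act θ (ea i) = ea i)
    (hb : ∀ i, s ≤ i → i < s + h → act θ (eb i) = eb i) : θ ∈ IA := by
  rw [mem_IA_iff_act]
  intro v
  have : act θ = AddMonoidHom.id Lat := by
    apply lat_hom_ext
    · intro i
      by_cases hi : s ≤ i ∧ i < s + h
      · exact ha i hi.1 hi.2
      · exact M_fix_ea hθ (by omega)
    · intro i
      by_cases hi : s ≤ i ∧ i < s + h
      · exact hb i hi.1 hi.2
      · exact M_fix_eb hθ (by omega)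
  rw [this]; rfl

/-- orthogonality to one hyperbolic pair removes the coordinates -/
theorem Vs_of_orth {s h : ℕ} {v : Lat} (hv : v ∈ Vs s (h + 1)) (h1 : om (ea s) v = 0)
    (h2 : om (eb s) v = 0) : v ∈ Vs (s + 1) h := by
  intro n hn
  rw [om_ea] at h1
  rw [om_eb] at h2
  by_cases h3 : n = 2 * s
  · rw [h3]; omega
  by_cases h4 : n = 2 * s + 1
  · rw [h4]; exact h1
  exact hv n (by omega)

end Pool.Agent.Torelli
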